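import Mathlib

set_option autoImplicit false

/-!
There is a veto interval graph which is not a midpoint veto interval graph.

Proof idea (counting).  A veto interval has three free parameters, a midpoint veto interval only
two.  With `m` free intervals and a scaffold of `3q` fixed intervals one gets `(q^3)^m` different
labelled veto interval graphs.  On the other hand the adjacencies between the `m` free vertices and
the scaffold in a midpoint representation are determined by the signs of `18 m q` linear forms on a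
space of dimension `2 (m + 3 q)`; by the Sauer-Shelah lemma there are at most `(27 q)^(2 (m + 3 q))`
such sign patterns, which is smaller than `q^(3m)` for `q = 27^3`, `m = 25 q`.
-/

namespace Pool.Agent.Results.MP_c8a11a_co.VINotMVI

/-- The closed interval `[la, ra]` with veto mark `va` (to the left) and the closed interval
`[lb, rb]` with veto mark `vb` (to the right) meet and neither of them contains the veto mark of the
other one: `a_v < b_l < a_r < b_v`. -/
def LeftOf (va ra lb vb : ℝ) : Prop := va < lb ∧ lb < ra ∧ ra < vb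

/-- A veto interval representation of a graph: distinct vertices have distinct veto intervals
`(l a, v a, r a)`, `l a < v a < r a`, and distinct vertices `a`, `b` are adjacent iff
`a_v < b_l < a_r < b_v` or `b_v < a_l < b_r < a_v`. -/
structure VetoRep {V : Type} (G : SimpleGraph V) where
  /-- left endpoint -/
  l : V → ℝ
  /-- veto mark -/
  v : V → ℝ
  /-- right endpoint -/
  r : V → ℝ
  l_lt_v : ∀ a, l a < v a
  v_lt_r : ∀ a, v a < r a
  inj : Function.Injective (fun a => (l a, v a, r a))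
  adj_iff : ∀ a b, a ≠ b →
    (G.Adj a b ↔ LeftOf (v a) (r a) (l b) (v b) ∨ LeftOf (v b) (r b) (l a) (v a))

/-- Veto interval graphs. -/
def IsVI {V : Type} (G : SimpleGraph V) : Prop := Nonempty (VetoRep G)

/-- Midpoint veto interval graphs: every veto mark is the midpoint of its interval. -/
def IsMVI {V : Type} (G : SimpleGraph V) : Prop :=
  ∃ R : VetoRep G, ∀ a, R.v a = (R.l a + R.r a) / 2

/-! ### Counting sign patterns -/

/-- The number of sign patterns of a finite family of linear forms on a space of dimension `d`. -/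
theorem sign_count {ι E : Type} [Fintype ι] [DecidableEq ι] [AddCommGroup E] [Module ℝ E]
    [FiniteDimensional ℝ E] (d : ℕ) (hd : Module.finrank ℝ E = d)
    (f : ι → (E →ₗ[ℝ] ℝ)) (𝒜 : Finset (Finset ι))
    (h𝒜 : ∀ A ∈ 𝒜, ∃ x : E, ∀ i, i ∈ A ↔ 0 < f i x) :
    𝒜.card ≤ ∑ k ∈ Finset.Iic d, (Fintype.card ι).choose k := by
  classical
  have hvc : 𝒜.vcDim ≤ d := by
    unfold Finset.vcDim
    apply Finset.sup_le
    intro s hs
    rw [Finset.mem_shatterer] at hs
    by_contra hcon
    push Not at hcon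
    have hnli : ¬ LinearIndependent ℝ (fun i : s => f i) := by
      intro hli
      have h1 := hli.fintype_card_le_finrank
      have h2 : Module.finrank ℝ (E →ₗ[ℝ] ℝ) = d := by
        rw [← hd]; exact Subspace.dual_finrank_eq
      rw [h2, Fintype.card_coe] at h1
      omega
    rw [Fintype.not_linearIndependent_iff] at hnli
    obtain ⟨g, hg, i0, hi0⟩ := hnli
    -- a relation with a positive coefficient
    obtain ⟨g, hg, i0, hi0⟩ : ∃ g : s → ℝ, ∑ i, g i • f i = 0 ∧ ∃ i, 0 < g i := by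
      rcases lt_or_gt_of_ne hi0 with h | h
      · refine ⟨fun i => - g i, ?_, i0, by simpa using h⟩
        have e : ∑ i, (-g i) • f i = -(∑ i, g i • f i) := by
          rw [← Finset.sum_neg_distrib]
          refine Finset.sum_congr rfl (fun i _ => ?_)
          ext x
          simp
        rw [e, hg, neg_zero]
      · exact ⟨g, hg, i0, h⟩
    obtain ⟨A, hA, hsA⟩ := hs (t := s.filter (fun i => ∃ h : i ∈ s, 0 < g ⟨i, h⟩))
      (Finset.filter_subset _ _)
    obtain ⟨x, hx⟩ := h𝒜 A hA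
    have hmem : ∀ i : s, 0 < f i x ↔ 0 < g i := by
      intro i
      rw [← hx i]
      constructor
      · intro hi
        have : (i : ι) ∈ s ∩ A := Finset.mem_inter.2 ⟨i.2, hi⟩
        rw [hsA, Finset.mem_filter] at this
        obtain ⟨_, _, h⟩ := this
        exact h
      · intro hi
        have : (i : ι) ∈ s ∩ A := by
          rw [hsA, Finset.mem_filter]
          exact ⟨i.2, i.2, hi⟩
        exact (Finset.mem_inter.1 this).2
    have hsum : ∑ i : s, g i * f i x = 0 := by
      have := congrArg (fun F : E →ₗ[ℝ] ℝ => F x) hg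
      simpa using this
    have hpos : 0 < ∑ i : s, g i * f i x := by
      apply Finset.sum_pos'
      · intro i _
        by_cases h : 0 < g i
        · exact le_of_lt (mul_pos h ((hmem i).2 h))
        · have h' : ¬ 0 < f i x := fun h2 => h ((hmem i).1 h2)
          push Not at h h'
          exact mul_nonneg_of_nonpos_of_nonpos h h'
      · exact ⟨i0, Finset.mem_univ _, mul_pos hi0 ((hmem i0).2 hi0)⟩
    linarith
  calc 𝒜.card ≤ 𝒜.shatterer.card := Finset.card_le_card_shatterer 𝒜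
    _ ≤ ∑ k ∈ Finset.Iic 𝒜.vcDim, (Fintype.card ι).choose k := Finset.card_shatterer_le_sum_vcDim
    _ ≤ ∑ k ∈ Finset.Iic d, (Fintype.card ι).choose k := by
      apply Finset.sum_le_sum_of_subset
      intro k hk
      rw [Finset.mem_Iic] at hk ⊢
      exact hk.trans hvc

/-- `∑_{k ≤ d} C(N, k) ≤ (3 Q)^d` whenever `N ≤ Q d`. -/
theorem sum_choose_le (N d Q : ℕ) (hQ : 0 < Q) (hN : N ≤ Q * d) :
    ∑ k ∈ Finset.Iic d, N.choose k ≤ (3 * Q) ^ d := by
  have hQr : (0 : ℝ) < Q := by exact_mod_cast hQ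
  have hQ1 : (1 : ℝ) ≤ Q := by exact_mod_cast hQ
  have h1 : ∑ k ∈ Finset.Iic d, N.choose k ≤ ∑ k ∈ Finset.Iic d, (Q * d).choose k :=
    Finset.sum_le_sum (fun k _ => Nat.choose_le_choose k hN)
  have h2 : (∑ k ∈ Finset.Iic d, ((Q * d).choose k : ℝ)) ≤ (Q : ℝ) ^ d * (1 + 1 / Q) ^ (Q * d) := by
    have e : (1 + 1 / (Q : ℝ)) ^ (Q * d)
        = ∑ k ∈ Finset.range (Q * d + 1), (1 / (Q : ℝ)) ^ k * ((Q * d).choose k : ℝ) := by
      rw [add_comm, add_pow]
      apply Finset.sum_congr rfl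
      intro k _
      rw [one_pow, mul_one]
    rw [e, Finset.mul_sum]
    calc (∑ k ∈ Finset.Iic d, ((Q * d).choose k : ℝ))
        ≤ ∑ k ∈ Finset.Iic d, (Q : ℝ) ^ d * ((1 / (Q : ℝ)) ^ k * ((Q * d).choose k : ℝ)) := by
          apply Finset.sum_le_sum
          intro k hk
          rw [Finset.mem_Iic] at hk
          have : (1 : ℝ) ≤ (Q : ℝ) ^ d * (1 / (Q : ℝ)) ^ k := by
            rw [one_div, inv_pow, ← div_eq_mul_inv, one_le_div (pow_pos hQr k)]
            exact pow_le_pow_right₀ hQ1 hk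
          calc ((Q * d).choose k : ℝ) = 1 * ((Q * d).choose k : ℝ) := (one_mul _).symm
            _ ≤ ((Q : ℝ) ^ d * (1 / (Q : ℝ)) ^ k) * ((Q * d).choose k : ℝ) :=
              mul_le_mul_of_nonneg_right this (Nat.cast_nonneg _)
            _ = _ := by ring
      _ ≤ ∑ k ∈ Finset.range (Q * d + 1),
            (Q : ℝ) ^ d * ((1 / (Q : ℝ)) ^ k * ((Q * d).choose k : ℝ)) := by
          apply Finset.sum_le_sum_of_subset_of_nonneg
          · intro k hk
            rw [Finset.mem_Iic] at hk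
            rw [Finset.mem_range]
            have : d ≤ Q * d := Nat.le_mul_of_pos_left d hQ
            omega
          · intro k _ _
            positivity
  have h3 : (1 + 1 / (Q : ℝ)) ^ (Q * d) ≤ 3 ^ d := by
    have h4 : 1 + 1 / (Q : ℝ) ≤ Real.exp (1 / Q) := by
      have := Real.add_one_le_exp (1 / (Q : ℝ))
      linarith
    have h5 : (1 + 1 / (Q : ℝ)) ^ Q ≤ 3 := by
      calc (1 + 1 / (Q : ℝ)) ^ Q ≤ (Real.exp (1 / Q)) ^ Q := by
            apply pow_le_pow_left₀ _ h4
            positivity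
        _ = Real.exp 1 := by
            rw [← Real.exp_nat_mul]
            congr 1
            field_simp
        _ ≤ 3 := by
            have := Real.exp_one_lt_d9
            linarith
    rw [pow_mul]
    apply pow_le_pow_left₀ _ h5
    positivity
  have h6 : ((∑ k ∈ Finset.Iic d, N.choose k : ℕ) : ℝ) ≤ (((3 * Q) ^ d : ℕ) : ℝ) := by
    calc ((∑ k ∈ Finset.Iic d, N.choose k : ℕ) : ℝ)
        ≤ ((∑ k ∈ Finset.Iic d, (Q * d).choose k : ℕ) : ℝ) := by exact_mod_cast h1
      _ = ∑ k ∈ Finset.Iic d, ((Q * d).choose k : ℝ) := by push_cast; rfl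
      _ ≤ (Q : ℝ) ^ d * (1 + 1 / Q) ^ (Q * d) := h2
      _ ≤ (Q : ℝ) ^ d * 3 ^ d := mul_le_mul_of_nonneg_left h3 (by positivity)
      _ = (((3 * Q) ^ d : ℕ) : ℝ) := by push_cast; rw [mul_pow]; ring
  exact_mod_cast h6

/-! ### The veto interval graphs -/

/-- Vertices: `m` free intervals and a scaffold of `3 q` intervals. -/
abbrev Vert (m q : ℕ) : Type := Fin m ⊕ Fin (3 * q)

/-- The choice of a slot for the left endpoint, the mark and the right endpoint of each free
interval. -/
abbrev Choice (m q : ℕ) : Type := Fin m → Fin q × Fin q × Fin q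

/-- left endpoints -/
noncomputable def cl (m q : ℕ) (c : Choice m q) : Vert m q → ℝ
  | Sum.inl j => ((c j).1 : ℕ) - 1 / 2 + ((j : ℕ) : ℝ) / (2 * (m + 1))
  | Sum.inr i => if (i : ℕ) < 2 * q then -3 - ((i : ℕ) : ℝ) else ((i : ℕ) : ℝ)

/-- veto marks -/
noncomputable def cv (m q : ℕ) (c : Choice m q) : Vert m q → ℝ
  | Sum.inl j => q + ((c j).2.1 : ℕ) - 1 / 2
  | Sum.inr i => if (i : ℕ) < 2 * q then -2 else 4 * q

/-- right endpoints -/
noncomputable def cr (m q : ℕ) (c : Choice m q) : Vert m q → ℝ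
  | Sum.inl j => 2 * q + ((c j).2.2 : ℕ) - 1 / 2
  | Sum.inr i => if (i : ℕ) < 2 * q then ((i : ℕ) : ℝ) else 4 * q + 1 + ((i : ℕ) : ℝ)

/-- The graph of a family of intervals with veto marks. -/
def mkGraph {V : Type} (l v r : V → ℝ) : SimpleGraph V where
  Adj a b := a ≠ b ∧ (LeftOf (v a) (r a) (l b) (v b) ∨ LeftOf (v b) (r b) (l a) (v a))
  symm := ⟨fun _ _ h => ⟨h.1.symm, h.2.symm⟩⟩
  loopless := ⟨fun _ h => h.1 rfl⟩

theorem eps_lt (m : ℕ) (j : Fin m) : ((j : ℕ) : ℝ) / (2 * (m + 1)) < 1 / 2 := by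
  have h : ((j : ℕ) : ℝ) < m := by exact_mod_cast j.2
  rw [div_lt_iff₀ (by positivity)]
  linarith

theorem eps_nonneg (m : ℕ) (j : Fin m) : 0 ≤ ((j : ℕ) : ℝ) / (2 * (m + 1)) := by positivity

/-- The graphs coded by choices are veto interval graphs. -/
theorem isVI_mk (m q : ℕ) (hq : 0 < q) (c : Choice m q) :
    IsVI (mkGraph (cl m q c) (cv m q c) (cr m q c)) := by
  have hq1 : (1 : ℝ) ≤ q := by exact_mod_cast hq
  refine ⟨⟨cl m q c, cv m q c, cr m q c, ?_, ?_, ?_, ?_⟩⟩
  · rintro (j | i)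
    · simp only [cl, cv]
      have h1 := eps_lt m j
      have h2 : (((c j).1 : ℕ) : ℝ) < q := by exact_mod_cast (c j).1.2
      have h3 : (0 : ℝ) ≤ (((c j).2.1 : ℕ) : ℝ) := Nat.cast_nonneg _
      have h4 : (((c j).1 : ℕ) : ℝ) + 1 ≤ q := by exact_mod_cast (c j).1.2
      linarith
    · simp only [cl, cv]
      have h1 : (0 : ℝ) ≤ ((i : ℕ) : ℝ) := Nat.cast_nonneg _
      split_ifs
      · linarith
      · have h2 : ((i : ℕ) : ℝ) < 3 * q := by exact_mod_cast i.2
        linarith
  · rintro (j | i)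
    · simp only [cr, cv]
      have h1 : (((c j).2.1 : ℕ) : ℝ) + 1 ≤ q := by exact_mod_cast (c j).2.1.2
      have h3 : (0 : ℝ) ≤ (((c j).2.2 : ℕ) : ℝ) := Nat.cast_nonneg _
      linarith
    · simp only [cr, cv]
      have h1 : (0 : ℝ) ≤ ((i : ℕ) : ℝ) := Nat.cast_nonneg _
      split_ifs
      · linarith
      · linarith
  · rintro (j | i) (j' | i') h
    · simp only [cl, cv, cr, Prod.mk.injEq] at h
      obtain ⟨h1, h2, h3⟩ := h
      have e1 := eps_lt m j
      have e1' := eps_nonneg m j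
      have e2 := eps_lt m j'
      have e2' := eps_nonneg m j'
      have hlt1 : ((((c j).1 : ℕ) : ℝ)) < (((c j').1 : ℕ) : ℝ) + 1 := by linarith
      have hlt2 : ((((c j').1 : ℕ) : ℝ)) < (((c j).1 : ℕ) : ℝ) + 1 := by linarith
      have hlt1' : ((c j).1 : ℕ) < ((c j').1 : ℕ) + 1 := by exact_mod_cast hlt1
      have hlt2' : ((c j').1 : ℕ) < ((c j).1 : ℕ) + 1 := by exact_mod_cast hlt2
      have heq : ((c j).1 : ℕ) = ((c j').1 : ℕ) := by omega
      rw [heq] at h1
      have h4 : ((j : ℕ) : ℝ) / (2 * (m + 1)) = ((j' : ℕ) : ℝ) / (2 * (m + 1)) := by linarith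
      have hm : (2 * ((m : ℝ) + 1)) ≠ 0 := by positivity
      have h5 : ((j : ℕ) : ℝ) = ((j' : ℕ) : ℝ) := by
        field_simp at h4
        linarith
      have h6 : (j : ℕ) = (j' : ℕ) := by exact_mod_cast h5
      rw [Fin.ext h6]
    · exfalso
      simp only [cl, cv, cr, Prod.mk.injEq] at h
      obtain ⟨h1, h2, h3⟩ := h
      have h4 : (((c j).2.1 : ℕ) : ℝ) + 1 ≤ q := by exact_mod_cast (c j).2.1.2
      have h5 : (0 : ℝ) ≤ (((c j).2.1 : ℕ) : ℝ) := Nat.cast_nonneg _
      split_ifs at h2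
      · linarith
      · linarith
    · exfalso
      simp only [cl, cv, cr, Prod.mk.injEq] at h
      obtain ⟨h1, h2, h3⟩ := h
      have h4 : (((c j').2.1 : ℕ) : ℝ) + 1 ≤ q := by exact_mod_cast (c j').2.1.2
      have h5 : (0 : ℝ) ≤ (((c j').2.1 : ℕ) : ℝ) := Nat.cast_nonneg _
      split_ifs at h2
      · linarith
      · linarith
    · simp only [cl, cv, cr, Prod.mk.injEq] at h
      obtain ⟨h1, h2, h3⟩ := h
      have h7 : (0 : ℝ) ≤ ((i : ℕ) : ℝ) := Nat.cast_nonneg _
      have h8 : (0 : ℝ) ≤ ((i' : ℕ) : ℝ) := Nat.cast_nonneg _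
      have h6 : ((i : ℕ) : ℝ) = ((i' : ℕ) : ℝ) := by
        split_ifs at h1 h2 h3 <;> linarith
      have h9 : (i : ℕ) = (i' : ℕ) := by exact_mod_cast h6
      rw [Fin.ext h9]
  · intro a b hab
    simp only [mkGraph]
    exact and_iff_right hab

/-- Adjacency of a free vertex with the scaffold. -/
def Pat (m q : ℕ) (c : Choice m q) (j : Fin m) (i : Fin (3 * q)) : Prop :=
  if (i : ℕ) < q then ((c j).1 : ℕ) ≤ i
  else if (i : ℕ) < 2 * q then (i : ℕ) < q + ((c j).2.1 : ℕ) else (i : ℕ) < 2 * q + ((c j).2.2 : ℕ)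

theorem adj_pat (m q : ℕ) (hq : 0 < q) (c : Choice m q) (j : Fin m) (i : Fin (3 * q)) :
    (mkGraph (cl m q c) (cv m q c) (cr m q c)).Adj (Sum.inl j) (Sum.inr i) ↔ Pat m q c j i := by
  have hq1 : (1 : ℝ) ≤ q := by exact_mod_cast hq
  have e1 := eps_lt m j
  have e1' := eps_nonneg m j
  have hne : (Sum.inl j : Vert m q) ≠ Sum.inr i := by simp
  have ha : (((c j).1 : ℕ) : ℝ) + 1 ≤ q := by exact_mod_cast (c j).1.2
  have ha0 : (0 : ℝ) ≤ (((c j).1 : ℕ) : ℝ) := Nat.cast_nonneg _
  have hb : (((c j).2.1 : ℕ) : ℝ) + 1 ≤ q := by exact_mod_cast (c j).2.1.2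
  have hb0 : (0 : ℝ) ≤ (((c j).2.1 : ℕ) : ℝ) := Nat.cast_nonneg _
  have hc : (((c j).2.2 : ℕ) : ℝ) + 1 ≤ q := by exact_mod_cast (c j).2.2.2
  have hc0 : (0 : ℝ) ≤ (((c j).2.2 : ℕ) : ℝ) := Nat.cast_nonneg _
  have hi0 : (0 : ℝ) ≤ ((i : ℕ) : ℝ) := Nat.cast_nonneg _
  simp only [mkGraph, ne_eq, hne, not_false_eq_true, true_and, LeftOf, cl, cv, cr, Pat]
  by_cases h2 : (i : ℕ) < 2 * q
  · simp only [if_pos h2]
    have h2r : ((i : ℕ) : ℝ) + 1 ≤ 2 * q := by exact_mod_cast h2
    by_cases h1 : (i : ℕ) < q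
    · simp only [if_pos h1]
      have h1r : ((i : ℕ) : ℝ) + 1 ≤ q := by exact_mod_cast h1
      constructor
      · rintro (⟨h, _, _⟩ | ⟨_, h, _⟩)
        · exfalso; linarith
        · have : (((c j).1 : ℕ) : ℝ) < ((i : ℕ) : ℝ) + 1 := by linarith
          have : ((c j).1 : ℕ) < (i : ℕ) + 1 := by exact_mod_cast this
          omega
      · intro h
        have : (((c j).1 : ℕ) : ℝ) ≤ ((i : ℕ) : ℝ) := by exact_mod_cast h
        right
        refine ⟨by linarith, by linarith, by linarith⟩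
    · simp only [if_neg h1]
      have h1r : (q : ℝ) ≤ ((i : ℕ) : ℝ) := by
        push Not at h1
        exact_mod_cast h1
      constructor
      · rintro (⟨h, _, _⟩ | ⟨_, _, h⟩)
        · exfalso; linarith
        · have : ((i : ℕ) : ℝ) < (q : ℝ) + (((c j).2.1 : ℕ) : ℝ) := by linarith
          exact_mod_cast this
      · intro h
        have : ((i : ℕ) : ℝ) + 1 ≤ (q : ℝ) + (((c j).2.1 : ℕ) : ℝ) := by exact_mod_cast h
        right
        refine ⟨by linarith, by linarith, by linarith⟩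
  · have h1 : ¬ (i : ℕ) < q := by omega
    simp only [if_neg h2, if_neg h1]
    have h2r : 2 * (q : ℝ) ≤ ((i : ℕ) : ℝ) := by
      push Not at h2
      exact_mod_cast h2
    constructor
    · rintro (⟨_, h, _⟩ | ⟨h, _, _⟩)
      · have : ((i : ℕ) : ℝ) < 2 * (q : ℝ) + (((c j).2.2 : ℕ) : ℝ) := by linarith
        exact_mod_cast this
      · exfalso; linarith
    · intro h
      have : ((i : ℕ) : ℝ) + 1 ≤ 2 * (q : ℝ) + (((c j).2.2 : ℕ) : ℝ) := by exact_mod_cast h
      left
      refine ⟨by linarith, by linarith, by linarith⟩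

/-- The choice can be read off from the adjacencies with the scaffold. -/
theorem pat_inj (m q : ℕ) (c c' : Choice m q) (h : ∀ j i, Pat m q c j i ↔ Pat m q c' j i) :
    c = c' := by
  funext j
  have ha : ∀ t : ℕ, t < q → (((c j).1 : ℕ) ≤ t ↔ ((c' j).1 : ℕ) ≤ t) := by
    intro t ht
    have := h j ⟨t, by omega⟩
    simpa [Pat, ht] using this
  have hb : ∀ t : ℕ, t < q → (t < ((c j).2.1 : ℕ) ↔ t < ((c' j).2.1 : ℕ)) := by
    intro t ht
    have := h j ⟨q + t, by omega⟩
    have h1 : ¬ q + t < q := by omega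
    have h2 : q + t < 2 * q := by omega
    simpa [Pat, h2] using this
  have hc : ∀ t : ℕ, t < q → (t < ((c j).2.2 : ℕ) ↔ t < ((c' j).2.2 : ℕ)) := by
    intro t ht
    have := h j ⟨2 * q + t, by omega⟩
    have h1 : ¬ 2 * q + t < q := by omega
    have h2 : ¬ 2 * q + t < 2 * q := by omega
    simpa [Pat, h1] using this
  apply Prod.ext
  · apply Fin.ext
    have h1 := ha _ (c j).1.2
    have h2 := ha _ (c' j).1.2
    omega
  · apply Prod.ext
    · apply Fin.ext
      have h1 := hb _ (c j).2.1.2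
      have h2 := hb _ (c' j).2.1.2
      omega
    · apply Fin.ext
      have h1 := hc _ (c j).2.2.2
      have h2 := hc _ (c' j).2.2.2
      omega

/-! ### The linear forms -/

/-- Left endpoint as a linear form. -/
def fL (V : Type) (a : V) : ((V ⊕ V) → ℝ) →ₗ[ℝ] ℝ := LinearMap.proj (Sum.inl a)

/-- Right endpoint as a linear form. -/
def fR (V : Type) (a : V) : ((V ⊕ V) → ℝ) →ₗ[ℝ] ℝ := LinearMap.proj (Sum.inr a)

/-- Midpoint as a linear form. -/
noncomputable def fM (V : Type) (a : V) : ((V ⊕ V) → ℝ) →ₗ[ℝ] ℝ :=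
  (1 / 2 : ℝ) • (fL V a + fR V a)

/-- The six forms deciding whether two midpoint veto intervals are adjacent. -/
noncomputable def form {V : Type} (a b : V) (k : Fin 6) : ((V ⊕ V) → ℝ) →ₗ[ℝ] ℝ :=
  ![fL V b - fM V a, fR V a - fL V b, fM V b - fR V a,
    fL V a - fM V b, fR V b - fL V a, fM V a - fR V b] k

theorem form_adj {V : Type} (l r : V → ℝ) (a b : V) :
    (LeftOf ((l a + r a) / 2) (r a) (l b) ((l b + r b) / 2) ∨
      LeftOf ((l b + r b) / 2) (r b) (l a) ((l a + r a) / 2)) ↔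
    ((0 < form a b 0 (Sum.elim l r) ∧ 0 < form a b 1 (Sum.elim l r) ∧
        0 < form a b 2 (Sum.elim l r)) ∨
      (0 < form a b 3 (Sum.elim l r) ∧ 0 < form a b 4 (Sum.elim l r) ∧
        0 < form a b 5 (Sum.elim l r))) := by
  simp only [form, fL, fR, fM, LeftOf, Matrix.cons_val, LinearMap.sub_apply, LinearMap.smul_apply,
    LinearMap.add_apply, LinearMap.proj_apply, Sum.elim_inl, Sum.elim_inr, smul_eq_mul]
  constructor
  · rintro (⟨h1, h2, h3⟩ | ⟨h1, h2, h3⟩)
    · left; refine ⟨by linarith, by linarith, by linarith⟩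
    · right; refine ⟨by linarith, by linarith, by linarith⟩
  · rintro (⟨h1, h2, h3⟩ | ⟨h1, h2, h3⟩)
    · left; refine ⟨by linarith, by linarith, by linarith⟩
    · right; refine ⟨by linarith, by linarith, by linarith⟩

/-- If all the coded graphs were midpoint veto interval graphs there would be few of them. -/
theorem count (m q : ℕ) (hq : 0 < q)
    (H : ∀ c : Choice m q, IsMVI (mkGraph (cl m q c) (cv m q c) (cr m q c))) :
    (q ^ 3) ^ m ≤ (3 * (9 * q)) ^ (2 * (m + 3 * q)) := by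
  classical
  choose R hR using H
  set A : Choice m q → Finset ((Fin m × Fin (3 * q)) × Fin 6) := fun c =>
    Finset.univ.filter (fun t => 0 < form (V := Vert m q) (Sum.inl t.1.1) (Sum.inr t.1.2) t.2
      (Sum.elim (R c).l (R c).r)) with hA
  have hAmem : ∀ c t, t ∈ A c ↔ 0 < form (V := Vert m q) (Sum.inl t.1.1) (Sum.inr t.1.2) t.2
      (Sum.elim (R c).l (R c).r) := by
    intro c t
    simp [hA]
  have hadj : ∀ c j i, Pat m q c j i ↔
      ((((j, i), 0) ∈ A c ∧ ((j, i), 1) ∈ A c ∧ ((j, i), 2) ∈ A c) ∨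
        (((j, i), 3) ∈ A c ∧ ((j, i), 4) ∈ A c ∧ ((j, i), 5) ∈ A c)) := by
    intro c j i
    rw [← adj_pat m q hq c j i, (R c).adj_iff _ _ (by simp), hR c, hR c, form_adj]
    simp only [hAmem]
  have hinj : Function.Injective A := by
    intro c c' h
    apply pat_inj
    intro j i
    rw [hadj c, hadj c', h]
  have hcard : (Finset.univ.image A).card = (q ^ 3) ^ m := by
    rw [Finset.card_image_of_injective _ hinj, Finset.card_univ]
    simp only [Choice, Fintype.card_fun, Fintype.card_prod, Fintype.card_fin]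
    congr 1
    ring
  rw [← hcard]
  have hfin : Module.finrank ℝ ((Vert m q ⊕ Vert m q) → ℝ) = 2 * (m + 3 * q) := by
    rw [Module.finrank_fintype_fun_eq_card]
    simp only [Vert, Fintype.card_sum, Fintype.card_fin]
    ring
  have h1 := sign_count (2 * (m + 3 * q)) hfin
    (fun t : (Fin m × Fin (3 * q)) × Fin 6 =>
      form (V := Vert m q) (Sum.inl t.1.1) (Sum.inr t.1.2) t.2) (Finset.univ.image A) (by
        intro B hB
        rw [Finset.mem_image] at hB
        obtain ⟨c, -, rfl⟩ := hB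
        exact ⟨Sum.elim (R c).l (R c).r, fun t => hAmem c t⟩)
  have h2 := sum_choose_le (Fintype.card ((Fin m × Fin (3 * q)) × Fin 6)) (2 * (m + 3 * q)) (9 * q)
    (by omega) (by
      simp only [Fintype.card_prod, Fintype.card_fin]
      nlinarith [Nat.zero_le (q * q)])
  exact h1.trans h2

/-- There is a finite veto interval graph which is not a midpoint veto interval graph. -/
theorem result : ∃ (V : Type) (_ : Fintype V) (G : SimpleGraph V), IsVI G ∧ ¬ IsMVI G := by
  by_contra hcon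
  push Not at hcon
  obtain ⟨q, hq⟩ : ∃ q : ℕ, q = 27 ^ 3 := ⟨_, rfl⟩
  have hq0 : 0 < q := by rw [hq]; norm_num
  have h := count (25 * q) q hq0 (fun c => hcon _ inferInstance _ (isVI_mk _ _ hq0 c))
  have e1 : (q ^ 3) ^ (25 * q) = 27 ^ (225 * q) := by
    have h3 : q ^ 3 = 27 ^ 9 := by rw [hq]; norm_num
    have h4 : 225 * q = 9 * (25 * q) := by ring
    rw [h3, ← pow_mul, h4]
  have e2 : (3 * (9 * q)) ^ (2 * (25 * q + 3 * q)) = 27 ^ (224 * q) := by
    have h3 : 3 * (9 * q) = 27 ^ 4 := by rw [hq]; norm_num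
    have h4 : 224 * q = 4 * (2 * (25 * q + 3 * q)) := by ring
    rw [h3, ← pow_mul, h4]
  rw [e1, e2] at h
  have h2 : 27 ^ (224 * q) < 27 ^ (225 * q) := by
    apply Nat.pow_lt_pow_right (by norm_num)
    omega
  exact absurd h (not_le.2 h2)

end Pool.Agent.Results.MP_c8a11a_co.VINotMVI
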